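import Pool.Agent.Run7.h35.EX.Stm

set_option autoImplicit false

/-!
Pieces CORR, B, SING of helper35's project EX (`MP_8bfc08_an`).
-/

open scoped BigOperators

namespace Run7.h713.EX

open Run7.h35.EX

noncomputable section

theorem av_mono {T : Type} [Fintype T] {f g : T → ℝ} (h : ∀ t, f t ≤ g t) : av f ≤ av g := by
  unfold av
  exact div_le_div_of_nonneg_right (Finset.sum_le_sum fun t _ => h t) (Nat.cast_nonneg _)

theorem av_add {T : Type} [Fintype T] (f g : T → ℝ) : av (fun t => f t + g t) = av f + av g := by
  unfold av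
  rw [Finset.sum_add_distrib, add_div]

theorem av_sub {T : Type} [Fintype T] (f g : T → ℝ) : av (fun t => f t - g t) = av f - av g := by
  unfold av
  rw [Finset.sum_sub_distrib, sub_div]

theorem av_mul {T : Type} [Fintype T] (c : ℝ) (f : T → ℝ) : av (fun t => c * f t) = c * av f := by
  unfold av
  rw [← Finset.mul_sum, mul_div_assoc]

theorem av_const {T : Type} [Fintype T] [Nonempty T] (c : ℝ) : av (fun _ : T => c) = c := by
  unfold av
  rw [Finset.sum_const, Finset.card_univ, nsmul_eq_mul]
  have h : (Fintype.card T : ℝ) ≠ 0 := by exact_mod_cast Fintype.card_ne_zero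
  field_simp

theorem av_nonneg {T : Type} [Fintype T] {f : T → ℝ} (h : ∀ t, 0 ≤ f t) : 0 ≤ av f := by
  unfold av
  exact div_nonneg (Finset.sum_nonneg fun t _ => h t) (Nat.cast_nonneg _)

theorem av_cs {T : Type} [Fintype T] (f g : T → ℝ) :
    av (fun t => f t * g t) ≤ Real.sqrt (av fun t => f t ^ 2) * Real.sqrt (av fun t => g t ^ 2) := by
  rw [← Real.sqrt_mul (av_nonneg fun t => sq_nonneg _)]
  apply Real.le_sqrt_of_sq_le
  unfold av
  rw [div_pow, div_mul_div_comm, ← pow_two]
  exact div_le_div_of_nonneg_right (Finset.sum_mul_sq_le_sq_mul_sq _ _ _) (sq_nonneg _)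

theorem av_abs {T : Type} [Fintype T] (f : T → ℝ) : |av f| ≤ av fun t => |f t| := by
  unfold av
  rw [abs_div, Nat.abs_cast]
  exact div_le_div_of_nonneg_right (Finset.abs_sum_le_sum_abs _ _) (Nat.cast_nonneg _)

theorem t_CORR : S_CORR := by
  intro V ι _ _ _ _ s η hη hgap f g
  have hVne : Nonempty V := ⟨0⟩
  obtain ⟨c, hc⟩ : ∃ c, c = av f := ⟨_, rfl⟩
  obtain ⟨d, hd⟩ : ∃ d, d = av g := ⟨_, rfl⟩
  have hsum : ∀ (h : V → ℝ), ∑ x, (h x - av h) = 0 := by
    intro h
    rw [Finset.sum_sub_distrib, Finset.sum_const, Finset.card_univ, nsmul_eq_mul]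
    unfold av
    have h1 : (Fintype.card V : ℝ) ≠ 0 := by exact_mod_cast Fintype.card_ne_zero
    field_simp
    ring
  have hav0 : ∀ (h : V → ℝ), av (fun x => h x - av h) = 0 := by
    intro h
    rw [av_sub, av_const, sub_self]
  have hvar : ∀ (h : V → ℝ), av (fun x => (h x - av h) ^ 2) ≤ av fun x => h x ^ 2 := by
    intro h
    have h1 : (fun x => (h x - av h) ^ 2) = fun x => (h x ^ 2 + (-(2 * av h)) * h x) + av h ^ 2 := by
      funext x; ring
    rw [h1, av_add, av_add, av_mul, av_const]
    nlinarith [sq_nonneg (av h)]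
  -- decomposition
  have hP : ∀ x, av (fun j => g (x + s j)) = d + av (fun j => g (x + s j) - d) := by
    intro x
    rw [av_sub, av_const]
    ring
  have e1 : av (fun x => f x * av fun j => g (x + s j)) =
      c * d + av (fun x => (f x - c) * av fun j => g (x + s j) - d) := by
    have h1 : (fun x => f x * av fun j => g (x + s j)) = fun x =>
        (d * f x + c * (av fun j => g (x + s j) - d)) + (f x - c) * av fun j => g (x + s j) - d := by
      funext x
      rw [hP x]
      ring
    rw [h1, av_add, av_add, av_mul, av_mul, ← hc]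
    -- the mean of `P (g - d)` is zero
    have h2 : av (fun x => av fun j => g (x + s j) - d) = 0 := by
      have h3 : av (fun x => av fun j => g (x + s j) - d) =
          av (fun j => av fun x => g (x + s j) - d) := by
        unfold av
        rw [← Finset.sum_div, ← Finset.sum_div, Finset.sum_comm, div_right_comm]
      rw [h3]
      have h4 : ∀ j, av (fun x => g (x + s j) - d) = 0 := by
        intro j
        have h5 : av (fun x => g (x + s j) - d) = av (fun x => g x - d) := by
          unfold av
          congr 1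
          exact Fintype.sum_equiv (Equiv.addRight (s j)) _ _ fun x => rfl
        rw [h5, hd]
        exact hav0 g
      simp only [h4]
      rw [av_const]
    rw [h2]
    ring
  have e2 : av (fun x => (f x - c) * av fun j => g (x + s j) - d) ≤
      Real.sqrt (av fun x => f x ^ 2) * (η * Real.sqrt (av fun x => g x ^ 2)) := by
    refine (av_cs (fun x => f x - c) (fun x => av fun j => g (x + s j) - d)).trans ?_
    refine mul_le_mul ?_ ?_ (Real.sqrt_nonneg _) (Real.sqrt_nonneg _)
    · apply Real.sqrt_le_sqrt
      rw [hc]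
      exact hvar f
    · have h1 := hgap (fun x => g x - d) (by rw [hd]; exact hsum g)
      have h2 : av (fun x => (g x - d) ^ 2) ≤ av fun x => g x ^ 2 := by rw [hd]; exact hvar g
      calc Real.sqrt (av fun x => (av fun j => g (x + s j) - d) ^ 2)
          ≤ Real.sqrt (η ^ 2 * av fun x => g x ^ 2) := by
            apply Real.sqrt_le_sqrt
            exact h1.trans (mul_le_mul_of_nonneg_left h2 (sq_nonneg _))
        _ = η * Real.sqrt (av fun x => g x ^ 2) := by
            rw [Real.sqrt_mul (sq_nonneg _), Real.sqrt_sq hη]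
  rw [e1, ← hc, ← hd]
  nlinarith [e2]

end

end Run7.h713.EX
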